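import Mathlib

/-!
# MP_73128c_co, the case `k = 4` of Lauri's question

There is a connected graph (on nine vertices) with exactly four isomorphism types of
cards whose automorphism group has five vertex orbits.
-/

namespace Pool.Agent.Results.MP_73128c_co.FourCardTypes

/-- The card `G - v`: the subgraph induced on the vertices other than `v`. -/
def card {V : Type} (G : SimpleGraph V) (v : V) : SimpleGraph {w : V // w ≠ v} :=
  G.comap Subtype.val

/-- Two vertices are equivalent when their cards are isomorphic. -/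
def cardSetoid {V : Type} (G : SimpleGraph V) : Setoid V where
  r u v := Nonempty (card G u ≃g card G v)
  iseqv := ⟨fun _ => ⟨SimpleGraph.Iso.refl⟩, fun ⟨e⟩ => ⟨e.symm⟩,
    fun ⟨e⟩ ⟨f⟩ => ⟨f.comp e⟩⟩

/-- The number of isomorphism types of cards of `G`. -/
noncomputable def numCardTypes {V : Type} (G : SimpleGraph V) : ℕ :=
  Nat.card (Quotient (cardSetoid G))

/-- The number of orbits of `Aut(G)` on the vertex set. -/
noncomputable def numOrbits {V : Type} (G : SimpleGraph V) : ℕ :=
  Nat.card (MulAction.orbitRel.Quotient (G ≃g G) V)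

/-- Adjacency lists of the example. -/
def nb (u : Fin 9) : List (Fin 9) :=
  match u with
  | 0 => [3, 7, 8]
  | 1 => [2, 6, 8]
  | 2 => [1, 3, 5]
  | 3 => [0, 2, 4]
  | 4 => [3, 5, 6, 7]
  | 5 => [2, 4, 6, 7]
  | 6 => [1, 4, 5, 8]
  | 7 => [0, 4, 5, 8]
  | 8 => [0, 1, 6, 7]

/-- The example: a connected graph on nine vertices. -/
def G9 : SimpleGraph (Fin 9) where
  Adj u v := v ∈ nb u
  symm := ⟨fun a b h => by revert a b; decide⟩
  loopless := ⟨fun a h => by revert a; decide⟩

instance : DecidableRel G9.Adj := fun u v => inferInstanceAs (Decidable (v ∈ nb u))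

instance (v : Fin 9) : DecidableRel (card G9 v).Adj :=
  fun a b => inferInstanceAs (Decidable (G9.Adj a.1 b.1))

/-! ### Connectedness -/

lemma conn : G9.Connected := by
  have e : ∀ u v : Fin 9, v ∈ nb u → G9.Reachable u v := fun u v h =>
    SimpleGraph.Adj.reachable (G := G9) h
  have h3 := e 0 3 (by decide)
  have h7 := e 0 7 (by decide)
  have h8 := e 0 8 (by decide)
  have h2 := h3.trans (e 3 2 (by decide))
  have h4 := h3.trans (e 3 4 (by decide))
  have h5 := h7.trans (e 7 5 (by decide))
  have h1 := h8.trans (e 8 1 (by decide))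
  have h6 := h8.trans (e 8 6 (by decide))
  have h0 : G9.Reachable 0 0 := SimpleGraph.Reachable.refl 0
  have all : ∀ v : Fin 9, G9.Reachable 0 v := by
    intro v
    fin_cases v
    exacts [h0, h1, h2, h3, h4, h5, h6, h7, h8]
  exact { preconnected := fun a b => (all a).symm.trans (all b), nonempty := ⟨0⟩ }

/-! ### Orbits -/

/-- The sum of the squares of the values of `f` over the neighbours of `v`. -/
def step (f : Fin 9 → ℕ) (v : Fin 9) : ℕ := ∑ w ∈ Finset.univ.filter (fun w => G9.Adj v w), f w ^ 2

/-- An invariant of the vertices under automorphisms. -/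
def inv2 : Fin 9 → ℕ := step (step (step (fun _ => 1)))

lemma step_inv (φ : G9 ≃g G9) (f : Fin 9 → ℕ) (hf : ∀ v, f (φ v) = f v) (v : Fin 9) :
    step f (φ v) = step f v := by
  unfold step
  symm
  refine Finset.sum_bij' (fun w _ => φ w) (fun w _ => φ.symm w) ?_ ?_ ?_ ?_ ?_
  · intro w hw
    simp only [Finset.mem_filter, Finset.mem_univ, true_and] at hw ⊢
    exact φ.map_adj_iff.mpr hw
  · intro w hw
    simp only [Finset.mem_filter, Finset.mem_univ, true_and] at hw ⊢
    have := φ.symm.map_adj_iff.mpr hw
    simpa using this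
  · intro w _
    simp
  · intro w _
    simp
  · intro w _
    rw [hf]

lemma inv2_inv (φ : G9 ≃g G9) (v : Fin 9) : inv2 (φ v) = inv2 v :=
  step_inv φ _ (step_inv φ _ (step_inv φ _ (fun _ => rfl))) v

lemma orbits : 4 < numOrbits G9 := by
  let F : MulAction.orbitRel.Quotient (G9 ≃g G9) (Fin 9) → ℕ :=
    Quotient.lift inv2 (by
      rintro a b ⟨φ, rfl⟩
      exact inv2_inv φ b)
  have hfin : Finite (MulAction.orbitRel.Quotient (G9 ≃g G9) (Fin 9)) := Quotient.finite _
  let rep : Fin 5 → Fin 9 := fun i =>
    match i with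
    | 0 => 0
    | 1 => 2
    | 2 => 4
    | 3 => 6
    | 4 => 8
  have hinj : Function.Injective
      (fun i : Fin 5 => (Quotient.mk _ (rep i) : MulAction.orbitRel.Quotient (G9 ≃g G9) (Fin 9))) := by
    intro i j hij
    have h : inv2 (rep i) = inv2 (rep j) := congrArg F hij
    have key : ∀ i j : Fin 5, inv2 (rep i) = inv2 (rep j) → i = j := by decide +kernel
    exact key i j h
  have := Nat.card_le_card_of_injective _ hinj
  rw [Nat.card_eq_fintype_card, Fintype.card_fin] at this
  exact this

/-! ### Cards -/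

/-- The sum of the squares of the degrees of the card at `v`. -/
def sq (v : Fin 9) : ℕ :=
  ∑ w : {w : Fin 9 // w ≠ v}, (Finset.univ.filter (fun x => (card G9 v).Adj w x)).card ^ 2

lemma sq_inv (a b : Fin 9) (φ : card G9 a ≃g card G9 b) : sq a = sq b := by
  unfold sq
  refine Fintype.sum_equiv φ.toEquiv _ _ ?_
  intro w
  congr 1
  refine Finset.card_bij' (fun x _ => φ x) (fun x _ => φ.symm x) ?_ ?_ ?_ ?_
  · intro x hx
    simp only [Finset.mem_filter, Finset.mem_univ, true_and] at hx ⊢
    exact φ.map_adj_iff.mpr hx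
  · intro x hx
    simp only [Finset.mem_filter, Finset.mem_univ, true_and] at hx ⊢
    have := φ.symm.map_adj_iff.mpr hx
    simpa using this
  · intro x _
    simp
  · intro x _
    simp

/-- The class number of each card. -/
def cls (v : Fin 9) : Fin 4 :=
  match v with
  | 0 => 0
  | 1 => 0
  | 2 => 1
  | 3 => 1
  | 4 => 2
  | 5 => 2
  | 6 => 2
  | 7 => 2
  | 8 => 3

/-- A relabelling of the nine vertices that carries the card at `v` to the card at the
representative of its class. -/
def perm (v : Fin 9) : Fin 9 → Fin 9 :=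
  match v with
  | 1 => ![1, 0, 3, 2, 5, 4, 7, 6, 8]
  | 3 => ![1, 0, 3, 2, 5, 4, 7, 6, 8]
  | 5 => ![1, 0, 3, 2, 5, 4, 7, 6, 8]
  | 6 => ![7, 3, 2, 5, 6, 1, 4, 8, 0]
  | 7 => ![3, 7, 5, 2, 1, 6, 8, 4, 0]
  | _ => ![0, 1, 2, 3, 4, 5, 6, 7, 8]

/-- The representative of each class. -/
def rep (i : Fin 4) : Fin 9 :=
  match i with
  | 0 => 0
  | 1 => 2
  | 2 => 4
  | 3 => 8

lemma card_iso_rep (v : Fin 9) : Nonempty (card G9 v ≃g card G9 (rep (cls v))) := by
  have hmap : ∀ v : Fin 9, ∀ w : Fin 9, w ≠ v → perm v w ≠ rep (cls v) := by decide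
  have hinj : ∀ v : Fin 9, ∀ w x : Fin 9, perm v w = perm v x → w = x := by decide
  have hadj : ∀ v : Fin 9, ∀ w x : Fin 9, w ≠ v → x ≠ v →
      (perm v x ∈ nb (perm v w) ↔ x ∈ nb w) := by decide
  let f : {w : Fin 9 // w ≠ v} → {w : Fin 9 // w ≠ rep (cls v)} :=
    fun w => ⟨perm v w.1, hmap v w.1 w.2⟩
  have hf : Function.Injective f := by
    intro a b hab
    exact Subtype.ext (hinj v _ _ (congrArg Subtype.val hab))
  have hbij : Function.Bijective f := by
    rw [Fintype.bijective_iff_injective_and_card]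
    exact ⟨hf, by simp [Fintype.card_subtype_compl]⟩
  exact ⟨{ toEquiv := Equiv.ofBijective f hbij
           map_rel_iff' := fun {a b} => hadj v a.1 b.1 a.2 b.2 }⟩

lemma cards : numCardTypes G9 = 4 := by
  let F : Quotient (cardSetoid G9) → ℕ := Quotient.lift sq (by
    rintro a b ⟨φ⟩
    exact sq_inv a b φ)
  have hbij : Function.Bijective
      (fun i : Fin 4 => (Quotient.mk (cardSetoid G9) (rep i))) := by
    constructor
    · intro i j hij
      have h : sq (rep i) = sq (rep j) := congrArg F hij
      have key : ∀ i j : Fin 4, sq (rep i) = sq (rep j) → i = j := by decide +kernel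
      exact key i j h
    · intro q
      induction q using Quotient.inductionOn with
      | h v =>
        refine ⟨cls v, ?_⟩
        obtain ⟨φ⟩ := card_iso_rep v
        exact Quotient.sound ⟨φ.symm⟩
  unfold numCardTypes
  rw [← Nat.card_eq_of_bijective _ hbij]
  simp

/-- **Lauri's question for `k = 4`, answered yes.** There is a connected graph with exactly
four isomorphism types of cards whose automorphism group has more than four orbits on the
vertex set. -/
theorem result : ∃ G : SimpleGraph (Fin 9),
    G.Connected ∧ numCardTypes G = 4 ∧ 4 < numOrbits G :=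
  ⟨G9, conn, cards, orbits⟩

end Pool.Agent.Results.MP_73128c_co.FourCardTypes
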